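import Pool.Agent.helper67.DL.SpecG

set_option autoImplicit false

namespace Pool.Agent.DL

open Matrix Complex
open scoped ComplexOrder Manifold ContDiff

section
variable {X : Type} [TopologicalSpace X] [ChartedSpace ℂ X]

theorem EX_congr {U : Set X} {m : ℕ} {q q' : Fam X} (h : IsDif U m q)
    (he : ∀ e ∈ atlas ℂ X, ∀ x ∈ U, x ∈ e.source → q' e x = q e x) : IsDif U m q' := by
  refine ⟨fun e hE => (h.1 e hE).congr fun z hz => he e hE _ hz.2 (e.map_target hz.1), ?_⟩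
  intro e hE e' hE' x hx hxe hxe'
  rw [he e hE x hx hxe, he e' hE' x hx hxe']
  exact h.2 e hE e' hE' x hx hxe hxe'

theorem EX_mul {U : Set X} {m n : ℕ} {q r : Fam X} (hq : IsDif U m q) (hr : IsDif U n r) :
    IsDif U (m + n) (fun e x => q e x * r e x) := by
  refine ⟨fun e hE => (hq.1 e hE).mul (hr.1 e hE), ?_⟩
  intro e hE e' hE' x hx hxe hxe'
  simp only
  rw [hq.2 e hE e' hE' x hx hxe hxe', hr.2 e hE e' hE' x hx hxe hxe', pow_add]
  ring

theorem EX_add {U : Set X} {m : ℕ} {q r : Fam X} (hq : IsDif U m q) (hr : IsDif U m r) :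
    IsDif U m (fun e x => q e x + r e x) := by
  refine ⟨fun e hE => (hq.1 e hE).add (hr.1 e hE), ?_⟩
  intro e hE e' hE' x hx hxe hxe'
  simp only
  rw [hq.2 e hE e' hE' x hx hxe hxe', hr.2 e hE e' hE' x hx hxe hxe']
  ring

theorem EX_holo {U : Set X} {m : ℕ} {f : X → ℂ} {q : Fam X} (hf : HoloOn f U)
    (hq : IsDif U m q) : IsDif U m (fun e x => f x * q e x) := by
  refine ⟨fun e hE => (hf e hE).mul (hq.1 e hE), ?_⟩
  intro e hE e' hE' x hx hxe hxe'
  simp only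
  rw [hq.2 e hE e' hE' x hx hxe hxe']
  ring

theorem EX_const {U : Set X} {m : ℕ} {q : Fam X} (c : ℂ) (hq : IsDif U m q) :
    IsDif U m (fun e x => c * q e x) :=
  EX_holo (f := fun _ => c) (fun _ _ => differentiableOn_const c) hq

theorem EX_glue {U V : Set X} {m : ℕ} {q : Fam X} (hU : IsOpen U) (hV : IsOpen V)
    (hUV : ∀ x, x ∈ U ∨ x ∈ V) (h1 : IsDif U m q) (h2 : IsDif V m q) :
    IsDif (Set.univ : Set X) m q := by
  have key : ∀ (W : Set X), IsOpen W → IsDif W m q → ∀ e ∈ atlas ℂ X, ∀ z ∈ e.target,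
      e.symm z ∈ W → DifferentiableAt ℂ (fun z => q e (e.symm z)) z := by
    intro W hW h e hE z hz hzW
    have ho : IsOpen (e.target ∩ e.symm ⁻¹' W) := e.isOpen_inter_preimage_symm hW
    exact (h.1 e hE).differentiableAt (ho.mem_nhds ⟨hz, hzW⟩)
  refine ⟨fun e hE z hz => ?_, ?_⟩
  · rcases hUV (e.symm z) with h | h
    · exact (key U hU h1 e hE z hz.1 h).differentiableWithinAt
    · exact (key V hV h2 e hE z hz.1 h).differentiableWithinAt
  · intro e hE e' hE' x _ hxe hxe'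
    rcases hUV x with h | h
    · exact h1.2 e hE e' hE' x h hxe hxe'
    · exact h2.2 e hE e' hE' x h hxe hxe'

variable {D : CD X}

theorem EX_w1_0 {e : OpenPartialHomeomorph X ℂ} {x : X} (hx : x ∈ D.U0) :
    w1 D e x = D.η0 e x := by
  unfold w1
  rw [if_pos hx]

theorem EX_w2_0 {e : OpenPartialHomeomorph X ℂ} {x : X} (hx : x ∈ D.U0) :
    w2 D e x = D.ζ x * D.η0 e x := by
  unfold w2
  rw [if_pos hx]

theorem EX_w1_1 (hD : D.Valid) {e : OpenPartialHomeomorph X ℂ} (he : e ∈ atlas ℂ X) {x : X}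
    (hx : x ∈ D.U1) (hxe : x ∈ e.source) : w1 D e x = D.ν x ^ 2 * D.η1 e x := by
  unfold w1
  split_ifs with h
  · exact hD.rel e he x ⟨h, hx⟩ hxe
  · rfl

theorem EX_w2_1 (hD : D.Valid) {e : OpenPartialHomeomorph X ℂ} (he : e ∈ atlas ℂ X) {x : X}
    (hx : x ∈ D.U1) (hxe : x ∈ e.source) : w2 D e x = D.ν x * D.η1 e x := by
  unfold w2
  split_ifs with h
  · rw [hD.rel e he x ⟨h, hx⟩ hxe]
    have h1 := hD.mul x ⟨h, hx⟩
    calc D.ζ x * (D.ν x ^ 2 * D.η1 e x) = (D.ζ x * D.ν x) * (D.ν x * D.η1 e x) := by ring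
      _ = D.ν x * D.η1 e x := by rw [h1, one_mul]
  · rfl

theorem EX_holo_sq {f : X → ℂ} {U : Set X} (h : HoloOn f U) : HoloOn (fun x => f x ^ 2) U :=
  fun e he => (h e he).pow 2

theorem EX_w1 (hD : D.Valid) : IsDif (Set.univ : Set X) 1 (w1 D) := by
  refine EX_glue hD.open0 hD.open1 hD.cover ?_ ?_
  · exact EX_congr hD.dif0 fun e _ x hx _ => EX_w1_0 hx
  · exact EX_congr (EX_holo (EX_holo_sq hD.holo1) hD.dif1) fun e he x hx hxe =>
      EX_w1_1 hD he hx hxe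

theorem EX_w2 (hD : D.Valid) : IsDif (Set.univ : Set X) 1 (w2 D) := by
  refine EX_glue hD.open0 hD.open1 hD.cover ?_ ?_
  · exact EX_congr (EX_holo hD.holo0 hD.dif0) fun e _ x hx _ => EX_w2_0 hx
  · exact EX_congr (EX_holo hD.holo1 hD.dif1) fun e he x hx hxe => EX_w2_1 hD he hx hxe

end

/-- the module EX -/
theorem EX : EX_stmt := by
  intro X _ _ D hD a t ha ht
  have ha' : (a : ℂ) ≠ 0 := by exact_mod_cast ha.ne'
  have hw1 := EX_w1 hD
  have hw2 := EX_w2 hD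
  have hs : IsDif Set.univ 1 (sF D a t) := EX_const _ hw2
  have hq : IsDif Set.univ 2 (qF D a t) := by
    have h1 : IsDif Set.univ 2 fun e x => w1 D e x * w1 D e x := EX_mul hw1 hw1
    have h2 : IsDif Set.univ 2 fun e x => w2 D e x * w2 D e x := EX_mul hw2 hw2
    refine EX_congr (EX_const ((t : ℂ) ^ 2 * (a : ℂ) ^ 2)
      (EX_add h1 (EX_const (-(a : ℂ) ^ 2) h2))) fun e _ x _ _ => ?_
    simp only [qF]
    ring
  have hss : IsDif Set.univ 2 fun e x => sF D a t e x * sF D a t e x := EX_mul hs hs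
  have hq2 : IsDif Set.univ 2 (q2F D a t) := by
    refine EX_congr (EX_add (EX_const 3 hss) hq) fun e _ x _ _ => ?_
    simp only [q2F]
    ring
  have hq3 : IsDif Set.univ 3 (q3F D a t) := by
    have h1 : IsDif Set.univ 3 fun e x => sF D a t e x *
        (sF D a t e x * sF D a t e x + -1 * qF D a t e x) := EX_mul hs (EX_add hss (EX_const (-1) hq))
    refine EX_congr (EX_const (-2) h1) fun e _ x _ _ => ?_
    simp only [q3F]
    ring
  have hch : ∀ x : X, chartAt ℂ x ∈ atlas ℂ X := fun x => chart_mem_atlas ℂ x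
  have hsr : ∀ x : X, x ∈ (chartAt ℂ x).source := fun x => mem_chart_source ℂ x
  refine ⟨⟨?_, ?_, ?_, ?_⟩, hw1, hw2, hs, hq, hq2, hq3, ?_, ?_, ?_, ?_, ?_⟩
  · intro i
    cases i
    · exact hD.open0
    · exact hD.open1
  · intro x
    rcases hD.cover x with h | h
    · exact ⟨false, h⟩
    · exact ⟨true, h⟩
  · intro i
    cases i
    · exact EX_const _ hD.dif0
    · exact EX_const _ hD.dif1
  · intro i x hx
    cases i
    · exact mul_ne_zero ha' (hD.ne0 x hx)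
    · exact mul_ne_zero ha' (hD.ne1 x hx)
  · intro x hx
    have h0 := hD.ne0 x hx.1
    have h1 := hD.ne1 x hx.2
    have hr := hD.rel _ (hch x) x hx (hsr x)
    have hm := hD.mul x hx
    have hν : D.ν x ≠ 0 := fun h => by
      rw [h, mul_zero] at hm
      exact zero_ne_one hm
    constructor
    · show (a : ℂ) * D.η1 (chartAt ℂ x) x / ((a : ℂ) * D.η0 (chartAt ℂ x) x) ^ 1 = D.ζ x ^ 2
      rw [hr, pow_one]
      have hz : D.ζ x = 1 / D.ν x := by
        field_simp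
        exact hm
      rw [hz]
      field_simp
    · show (a : ℂ) * D.η0 (chartAt ℂ x) x / ((a : ℂ) * D.η1 (chartAt ℂ x) x) ^ 1 = D.ν x ^ 2
      rw [hr, pow_one]
      field_simp
  · intro i x hx
    cases i
    · have h0 := hD.ne0 x hx
      show (a : ℂ) * D.η0 (chartAt ℂ x) x / ((a : ℂ) * D.η0 (chartAt ℂ x) x) ^ 1 = 1
      rw [pow_one]
      exact div_self (mul_ne_zero ha' h0)
    · have h0 := hD.ne1 x hx
      show (a : ℂ) * D.η1 (chartAt ℂ x) x / ((a : ℂ) * D.η1 (chartAt ℂ x) x) ^ 1 = 1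
      rw [pow_one]
      exact div_self (mul_ne_zero ha' h0)
  · intro x hx
    have h0 := hD.ne0 x hx
    constructor
    · show I * t * (a : ℂ) ^ 2 / 3 * w2 D (chartAt ℂ x) x /
        ((a : ℂ) * D.η0 (chartAt ℂ x) x) ^ 1 = I * t * (a * D.ζ x) / 3
      rw [EX_w2_0 hx, pow_one]
      field_simp
    · show (t : ℂ) ^ 2 * (a : ℂ) ^ 2 * (w1 D (chartAt ℂ x) x ^ 2 -
        (a : ℂ) ^ 2 * w2 D (chartAt ℂ x) x ^ 2) / ((a : ℂ) * D.η0 (chartAt ℂ x) x) ^ 2 =
          (t : ℂ) ^ 2 * (1 - (a * D.ζ x) ^ 2)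
      rw [EX_w2_0 hx, EX_w1_0 hx]
      field_simp
  · intro x hx
    have h1 := hD.ne1 x hx
    constructor
    · show I * t * (a : ℂ) ^ 2 / 3 * w2 D (chartAt ℂ x) x /
        ((a : ℂ) * D.η1 (chartAt ℂ x) x) ^ 1 = I * t * a / 3 * D.ν x
      rw [EX_w2_1 hD (hch x) hx (hsr x), pow_one]
      field_simp
    · show (t : ℂ) ^ 2 * (a : ℂ) ^ 2 * (w1 D (chartAt ℂ x) x ^ 2 -
        (a : ℂ) ^ 2 * w2 D (chartAt ℂ x) x ^ 2) / ((a : ℂ) * D.η1 (chartAt ℂ x) x) ^ 2 =
          (t : ℂ) ^ 2 * (D.ν x ^ 4 - (a : ℂ) ^ 2 * D.ν x ^ 2)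
      rw [EX_w2_1 hD (hch x) hx (hsr x), EX_w1_1 hD (hch x) hx (hsr x)]
      field_simp
  · intro i x hx
    constructor
    · show (3 * sF D a t (chartAt ℂ x) x ^ 2 + qF D a t (chartAt ℂ x) x) /
        (cov D a).η i (chartAt ℂ x) x ^ 2 = 3 * (sF D a t (chartAt ℂ x) x /
          (cov D a).η i (chartAt ℂ x) x ^ 1) ^ 2 + qF D a t (chartAt ℂ x) x /
            (cov D a).η i (chartAt ℂ x) x ^ 2
      rw [pow_one, div_pow, add_div, mul_div_assoc]
    · show -2 * sF D a t (chartAt ℂ x) x * (sF D a t (chartAt ℂ x) x ^ 2 -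
        qF D a t (chartAt ℂ x) x) / (cov D a).η i (chartAt ℂ x) x ^ 3 =
          -2 * (sF D a t (chartAt ℂ x) x / (cov D a).η i (chartAt ℂ x) x ^ 1) *
            ((sF D a t (chartAt ℂ x) x / (cov D a).η i (chartAt ℂ x) x ^ 1) ^ 2 -
              qF D a t (chartAt ℂ x) x / (cov D a).η i (chartAt ℂ x) x ^ 2)
      generalize sF D a t (chartAt ℂ x) x = S
      generalize qF D a t (chartAt ℂ x) x = Q
      generalize (cov D a).η i (chartAt ℂ x) x = N
      simp only [div_eq_mul_inv]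
      have e3 : (N ^ 3)⁻¹ = N⁻¹ ^ 3 := (inv_pow N 3).symm
      have e2 : (N ^ 2)⁻¹ = N⁻¹ ^ 2 := (inv_pow N 2).symm
      rw [e3, e2, pow_one]
      ring

end Pool.Agent.DL
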