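import Pool.Agent.helper67.DL.SpecL

set_option autoImplicit false

namespace Pool.Agent.DL

open Matrix Complex
open scoped ComplexOrder

/-- the scalar inequality behind FD -/
theorem FD_scalar (t m U X g w Z L : ℝ) (ht : 1 ≤ t) (hm : 1 ≤ m) (hU : Real.log m ≤ U)
    (hX : 0 ≤ X) (hg : g ≤ 60 / t ^ 2 * Z * (m + 1)) (hM : 2 * (m * (m - 1)) ≤ X * g)
    (hw : 1 / 2 ≤ w) (hZ : 1 ≤ Z) (hL : w * X / m ≤ L) :
    (1 / Real.sqrt (60 * (2 + U)) * t) ^ 2 * Real.log m / Z ≤ L := by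
  have hu0 : 0 ≤ Real.log m := Real.log_nonneg hm
  have hum : Real.log m ≤ m - 1 := Real.log_le_sub_one_of_pos (by linarith)
  have hU0 : 0 ≤ U := hu0.trans hU
  have h60 : 0 < 60 * (2 + U) := by linarith
  refine le_trans ?_ hL
  have e1 : (1 / Real.sqrt (60 * (2 + U)) * t) ^ 2 = t ^ 2 / (60 * (2 + U)) := by
    rw [mul_pow, div_pow, one_pow, Real.sq_sqrt h60.le]
    ring
  rw [e1]
  have ht2 : 0 < t ^ 2 := by positivity
  have hZ0 : 0 < Z := by linarith
  have hm0 : 0 < m := by linarith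
  -- X bound
  have h1 : 2 * (m * (m - 1)) ≤ X * (60 / t ^ 2 * Z * (m + 1)) :=
    hM.trans (mul_le_mul_of_nonneg_left hg hX)
  have h2 : 2 * (m * (m - 1)) * t ^ 2 ≤ X * (60 * Z * (m + 1)) := by
    have h3 := mul_le_mul_of_nonneg_right h1 ht2.le
    have h4 : X * (60 / t ^ 2 * Z * (m + 1)) * t ^ 2 = X * (60 * Z * (m + 1)) := by
      field_simp
    rw [h4] at h3
    exact h3
  -- the ratio
  have h5 : Real.log m * (m + 1) ≤ (2 + U) * (m - 1) := by
    have h6 : Real.log m * (m + 1) ≤ (2 + Real.log m) * (m - 1) := by nlinarith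
    have h7 : (2 + Real.log m) * (m - 1) ≤ (2 + U) * (m - 1) :=
      mul_le_mul_of_nonneg_right (by linarith) (by linarith)
    exact h6.trans h7
  rw [div_mul_eq_mul_div, div_div, div_le_div_iff₀ (by positivity) hm0]
  -- goal: t^2 * log m * m ≤ w * X * (60 * (2+U) * Z)
  have h8 : t ^ 2 * Real.log m * m * (m + 1) ≤ w * X * (60 * (2 + U) * Z) * (m + 1) := by
    calc t ^ 2 * Real.log m * m * (m + 1) = t ^ 2 * m * (Real.log m * (m + 1)) := by ring
      _ ≤ t ^ 2 * m * ((2 + U) * (m - 1)) := mul_le_mul_of_nonneg_left h5 (by positivity)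
      _ = (2 + U) / 2 * (2 * (m * (m - 1)) * t ^ 2) := by ring
      _ ≤ (2 + U) / 2 * (X * (60 * Z * (m + 1))) := mul_le_mul_of_nonneg_left h2 (by positivity)
      _ = 1 / 2 * (X * (60 * (2 + U) * Z) * (m + 1)) := by ring
      _ ≤ w * (X * (60 * (2 + U) * Z) * (m + 1)) :=
          mul_le_mul_of_nonneg_right hw (by positivity)
      _ = w * X * (60 * (2 + U) * Z) * (m + 1) := by ring
  exact le_of_mul_le_mul_right h8 (by linarith)

/-- the module FD -/
theorem FD (hWL : WL_stmt) (hM2 : M2_stmt) (hFP : FP_stmt) (hFA : FA_stmt) (hMN : MN_stmt) :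
    FD_stmt := by
  intro t R W H ht hR hW hH hA z hz
  have ht0 : t ≠ 0 := by linarith
  have hsub : ∀ z : ℂ, ‖z‖ ≤ R → z ∈ Metric.ball (0 : ℂ) (R + 2) := by
    intro z hz
    rw [Metric.mem_ball, dist_zero_right]
    linarith
  have hm2 : ∀ z ∈ Metric.ball (0 : ℂ) (R + 2), 1 ≤ nn (H z) (PP t z) ∧
      2 * (nn (H z) (PP t z) * (nn (H z) (PP t z) - 1)) ≤
        nn (H z) (adj (H z) (AA t z) * PP t z - PP t z * adj (H z) (AA t z)) *
          nn (H z) (GG t z) := by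
    intro z hz
    obtain ⟨a1, a2, a3, a4, a5, -, -, -, -⟩ := hFA t z ht0
    obtain ⟨b1, -, b3⟩ := hM2 (H z) (AA t z) (GG t z) (ev t z) (cv t z) (-2 * ss t z)
      (hH.pos z hz) a1 a2 a3 a4 a5
    exact ⟨b1, b3⟩
  obtain ⟨-, -, -, -, -, -, -, a8, a9⟩ := hFA t 0 ht0
  have hmono : ∀ A : ℂ → Matrix (Fin 3) (Fin 3) ℂ, HM Set.univ A →
      HM (Metric.ball (0 : ℂ) (R + 2)) A := fun A h a b => (h a b).mono (Set.subset_univ _)
  obtain ⟨-, -, w3⟩ := hWL 3 (Metric.ball 0 (R + 2)) W (AA t) H (PP t) Metric.isOpen_ball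
    (hmono _ a8) (hmono _ a9) hH
    (fun z _ => by
      obtain ⟨-, a2, a3, -⟩ := hFA t z ht0
      rw [a2, a3])
    (fun z hz h0 => by
      have h1 := (hm2 z hz).1
      rw [h0] at h1
      have h2 : nn (H z) 0 = 0 := by
        unfold nn nn2
        simp
      rw [h2] at h1
      linarith)
  have hzb := hsub z hz
  obtain ⟨c1, c2⟩ := hm2 z hzb
  obtain ⟨p1, p2⟩ := hFP t z (H z) ht (hH.pos z hzb) (hA z hz)
  have hU : Real.log (nn (H z) (PP t z)) ≤ Uc R := by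
    unfold Uc
    have h1 : nn (H z) (PP t z) ≤ (53 * (1 + R ^ 2)) ^ 2 := by
      refine p1.trans ?_
      have h2 : ‖z‖ ^ 2 ≤ R ^ 2 := pow_le_pow_left₀ (norm_nonneg z) hz 2
      exact pow_le_pow_left₀ (by positivity) (by linarith) 2
    have h3 := Real.log_le_log (by linarith) h1
    rw [Real.log_pow] at h3
    exact_mod_cast h3
  refine ⟨Real.log_nonneg c1, hU, ?_⟩
  have hX := (hMN 3 (H z) (hH.pos z hzb)).1
    (adj (H z) (AA t z) * PP t z - PP t z * adj (H z) (AA t z))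
  exact FD_scalar t _ (Uc R) _ (nn (H z) (GG t z)) (W z) (1 + ‖z‖ ^ 2) _ ht c1 hU hX p2 c2
    (hW z hzb).1 (by nlinarith [sq_nonneg ‖z‖]) (w3 z hzb)

end Pool.Agent.DL
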