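import Pool.Agent.helper67.DL.SpecL

set_option autoImplicit false

namespace Pool.Agent.DL

open Matrix Complex
open scoped ComplexOrder

attribute [local instance] Matrix.frobeniusNormedRing Matrix.frobeniusNormedSpace

theorem MN_frob {n : ℕ} (M : Matrix (Fin n) (Fin n) ℂ) : ∑ a, ∑ b, ‖M a b‖ ^ 2 = ‖M‖ ^ 2 := by
  have h0 : 0 ≤ ∑ a, ∑ b, ‖M a b‖ ^ (2 : ℝ) :=
    Finset.sum_nonneg fun a _ => Finset.sum_nonneg fun b _ => Real.rpow_nonneg (norm_nonneg _) _
  rw [Matrix.frobenius_norm_def, ← Real.sqrt_eq_rpow, Real.sq_sqrt h0]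
  exact Finset.sum_congr rfl fun a _ => Finset.sum_congr rfl fun b _ =>
    (Real.rpow_natCast _ 2).symm

/-- the module MN -/
theorem MN (hMR : MR_stmt) : MN_stmt := by
  intro n H hH
  obtain ⟨L, hL, hHL, hn, hadj⟩ := hMR n H hH
  have hLi : L⁻¹ * L = 1 := Matrix.nonsing_inv_mul L hL
  have hLi' : L * L⁻¹ = 1 := Matrix.mul_nonsing_inv L hL
  have hnorm : ∀ P, nn H P = ‖L * P * L⁻¹‖ ^ 2 := fun P => by rw [hn P, MN_frob]
  have hsqrt : ∀ P, Real.sqrt (nn H P) = ‖L * P * L⁻¹‖ := fun P => by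
    rw [hnorm P, Real.sqrt_sq (norm_nonneg _)]
  have hHdet : IsUnit H.det := by
    rw [hHL, Matrix.det_mul, Matrix.det_conjTranspose]
    exact (IsUnit.star hL).mul hL
  have hHi : H * H⁻¹ = 1 := Matrix.mul_nonsing_inv H hHdet
  have hHi' : H⁻¹ * H = 1 := Matrix.nonsing_inv_mul H hHdet
  refine ⟨fun P => ?_, fun P h => ?_, fun c P => ?_, fun P Q => ?_, fun P Q => ?_, ?_,
    fun P c htr => ?_, fun P => ?_⟩
  · rw [hnorm P]
    exact sq_nonneg _
  · rw [hnorm P] at h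
    have h1 : L * P * L⁻¹ = 0 := norm_eq_zero.1 (pow_eq_zero_iff two_ne_zero |>.1 h)
    have h2 : P = L⁻¹ * (L * P * L⁻¹) * L := by
      rw [Matrix.mul_assoc, Matrix.mul_assoc, hLi, Matrix.mul_one, ← Matrix.mul_assoc, hLi,
        Matrix.one_mul]
    rw [h2, h1, Matrix.mul_zero, Matrix.zero_mul]
  · rw [hnorm, hnorm, Matrix.mul_smul, Matrix.smul_mul, norm_smul, mul_pow]
  · rw [hsqrt, hsqrt, hsqrt, Matrix.mul_add, Matrix.add_mul]
    exact norm_add_le _ _
  · rw [hnorm, hnorm, hnorm, ← mul_pow]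
    have h1 : L * (P * Q) * L⁻¹ = (L * P * L⁻¹) * (L * Q * L⁻¹) := by
      calc L * (P * Q) * L⁻¹ = L * P * (1 : Matrix (Fin n) (Fin n) ℂ) * Q * L⁻¹ := by
            simp only [Matrix.mul_assoc, Matrix.one_mul]
        _ = (L * P * L⁻¹) * (L * Q * L⁻¹) := by
            rw [← hLi]
            simp only [Matrix.mul_assoc]
    rw [h1]
    exact pow_le_pow_left₀ (norm_nonneg _) (norm_mul_le _ _) 2
  · unfold nn nn2
    rw [Matrix.conjTranspose_one, Matrix.mul_one, Matrix.mul_one, hHi', Matrix.trace_one]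
    simp
  · unfold nn nn2
    have e1 : H⁻¹ * (P + c • 1)ᴴ * H * (P + c • 1) =
        H⁻¹ * Pᴴ * H * P + c • (H⁻¹ * Pᴴ * H) + star c • P + (star c * c) • 1 := by
      have e0 : H⁻¹ * (P + c • 1)ᴴ * H = H⁻¹ * Pᴴ * H + star c • 1 := by
        rw [Matrix.conjTranspose_add, Matrix.conjTranspose_smul, Matrix.conjTranspose_one,
          Matrix.mul_add, Matrix.mul_smul, Matrix.mul_one, Matrix.add_mul, Matrix.smul_mul, hHi']
      rw [e0, Matrix.mul_add, Matrix.mul_smul, Matrix.mul_one, Matrix.add_mul, Matrix.smul_mul,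
        Matrix.one_mul, smul_add, smul_smul, mul_comm c (star c)]
      abel
    have e2 : trace (H⁻¹ * Pᴴ * H) = 0 := by
      rw [Matrix.trace_mul_comm, ← Matrix.mul_assoc, hHi, Matrix.one_mul,
        Matrix.trace_conjTranspose, htr, star_zero]
    rw [e1, Matrix.trace_add, Matrix.trace_add, Matrix.trace_add, Matrix.trace_smul,
      Matrix.trace_smul, Matrix.trace_smul, e2, htr, smul_zero, smul_zero, add_zero, add_zero,
      Matrix.trace_one, Complex.add_re]
    congr 1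
    rw [smul_eq_mul, Fintype.card_fin]
    have e3 : star c * c = ((‖c‖ ^ 2 : ℝ) : ℂ) := by
      rw [← Complex.normSq_eq_norm_sq, Complex.normSq_eq_conj_mul_self]
      rfl
    rw [e3]
    rw [mul_comm]
    norm_cast
  · rw [hn, hn, hadj, Finset.sum_comm]
    refine Finset.sum_congr rfl fun a _ => Finset.sum_congr rfl fun b _ => ?_
    rw [Matrix.conjTranspose_apply, norm_star]

end Pool.Agent.DL
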